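import Mathlib

/-!
# Metrics on the 2-torus with a cubic integral (MP_582a01_gt): definitions

Blueprint: notes kind=proof on MP_582a01_gt, team-store MP_582a01_proof.md.
-/

open Real
open scoped ContDiff

namespace Pool.Agent.Lib.BKF

noncomputable section

/-- partial derivative in the first variable -/
def dx (f : ℝ × ℝ → ℝ) (z : ℝ × ℝ) : ℝ := fderiv ℝ f z (1, 0)

/-- partial derivative in the second variable -/
def dy (f : ℝ × ℝ → ℝ) (z : ℝ × ℝ) : ℝ := fderiv ℝ f z (0, 1)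

/-- the system for the conformal factor `lam` and the coefficient `b1 + i b2` of the cubic
integral, at the point `z`:
`(b1 + 3 lam)_x = (b2)_y`, `(b2)_x + (b1 - 3 lam)_y = 0`, `(lam b1)_x + (lam b2)_y = 0`. -/
def PDE (lam b1 b2 : ℝ × ℝ → ℝ) (z : ℝ × ℝ) : Prop :=
  dx b1 z + 3 * dx lam z = dy b2 z ∧
  dx b2 z + dy b1 z = 3 * dy lam z ∧
  dx lam z * b1 z + lam z * dx b1 z + (dy lam z * b2 z + lam z * dy b2 z) = 0

/-! ## the two-wave states -/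

def cS (α β : ℝ) : ℝ := -2 * (cos (3 * (α - β)) + 3 * cos (α + β))

def sA (α β : ℝ) : ℝ := 2 * (cos (3 * α) + 3 * cos (α - 2 * β)) / cS α β

def sB (α β : ℝ) : ℝ := 2 * (cos (3 * β) + 3 * cos (2 * α - β)) / cS α β

def lamS (α β : ℝ) : ℝ := (cS α β) ^ (-(2 / 3) : ℝ)

def b1S (α β : ℝ) : ℝ := -3 * lamS α β * (cos (2 * α) + cos (2 * β) + cos (2 * (α - β)))

def b2S (α β : ℝ) : ℝ := -3 * lamS α β * (-sin (2 * α) + sin (2 * β) + sin (2 * (α - β)))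

/-! ## base directions -/

/-- transversal coordinate of the waves of direction 60 degrees -/
def nA (z : ℝ × ℝ) : ℝ := -(√3 / 2) * z.1 + z.2 / 2

/-- transversal coordinate of the waves of direction 120 degrees -/
def nB (z : ℝ × ℝ) : ℝ := (√3 / 2) * z.1 + z.2 / 2

/-- physical position as a function of the labels, without waves -/
def X0 (z : ℝ × ℝ) : ℝ × ℝ := ((z.2 - z.1) / √3, z.1 + z.2)

/-- a family of two-wave states: `h` is the profile, `al`, `be` the two critical angles as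
functions of the labels -/
structure IsStates (h : ℝ → ℝ) (al be : ℝ × ℝ → ℝ) : Prop where
  h_smooth : ContDiff ℝ ∞ h
  al_smooth : ContDiff ℝ ∞ al
  be_smooth : ContDiff ℝ ∞ be
  h_one : ∀ t, 1 ≤ |t| → h t = 1
  h_ne : ∃ t, h t ≠ 1
  sA_eq : ∀ z, sA (al z) (be z) = h z.1
  sB_eq : ∀ z, sB (al z) (be z) = h z.2
  al_const : ∀ z : ℝ × ℝ, 1 ≤ |z.2| → al z = π / 3
  be_const : ∀ z : ℝ × ℝ, 1 ≤ |z.1| → be z = π / 3
  swap : ∀ z : ℝ × ℝ, be z = al z.swap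
  dep : ∀ z w : ℝ × ℝ, h z.1 = h w.1 → h z.2 = h w.2 → al z = al w ∧ be z = be w

/-- the map `P` from labels to positions (with inverse `Q`); `ν` (with inverse `μ`) describes
the distortion of a wave that crossed the other one -/
structure IsMap (al be : ℝ × ℝ → ℝ) (P Q : ℝ × ℝ → ℝ × ℝ) (ν μ : ℝ → ℝ) : Prop where
  P_smooth : ContDiff ℝ ∞ P
  Q_smooth : ContDiff ℝ ∞ Q
  ν_smooth : ContDiff ℝ ∞ ν
  μ_smooth : ContDiff ℝ ∞ μ
  QP : ∀ z, Q (P z) = z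
  PQ : ∀ w, P (Q w) = w
  alongA : ∀ z, -sin (al z) * (fderiv ℝ P z (0, 1)).1 + cos (al z) * (fderiv ℝ P z (0, 1)).2 = 0
  alongB : ∀ z, sin (be z) * (fderiv ℝ P z (1, 0)).1 + cos (be z) * (fderiv ℝ P z (1, 0)).2 = 0
  close : ∀ z, |(P z).1 - (X0 z).1| ≤ 1 / 10 ∧ |(P z).2 - (X0 z).2| ≤ 1 / 10
  inA : ∀ z : ℝ × ℝ, z.2 ≤ -1 → nA (P z) = z.1
  inB : ∀ z : ℝ × ℝ, z.1 ≤ -1 → nB (P z) = z.2
  outA : ∀ z : ℝ × ℝ, 1 ≤ z.2 → nA (P z) = ν z.1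
  outB : ∀ z : ℝ × ℝ, 1 ≤ z.1 → nB (P z) = ν z.2
  μν : ∀ s, μ (ν s) = s
  νμ : ∀ s, ν (μ s) = s
  ν_close : ∀ s, |ν s - s| ≤ 1 / 5

/-- a solution of the PDE on the plane describing the crossing of two waves;
`li`/`lo` are the profiles before/after the crossing -/
structure IsCross (lam b1 b2 : ℝ × ℝ → ℝ) (lo li : ℝ → ℝ) : Prop where
  lam_smooth : ContDiff ℝ ∞ lam
  b1_smooth : ContDiff ℝ ∞ b1
  b2_smooth : ContDiff ℝ ∞ b2
  pos : ∀ z, 0 < lam z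
  pde : ∀ z, PDE lam b1 b2 z
  lo_zero : ∀ t, 2 ≤ |t| → lo t = 0
  li_zero : ∀ t, 2 ≤ |t| → li t = 0
  li_smooth : ContDiff ℝ ∞ li
  li_ne : ∃ t, deriv li t ≠ 0
  up : ∀ z : ℝ × ℝ, 4 ≤ z.2 → lam z = 1 + (lo (nA z) + lo (nB z)) ∧
    b1 z = -(3 / 2) * (lo (nA z) + lo (nB z)) ∧ b2 z = (3 * √3 / 2) * (lo (nB z) - lo (nA z))
  down : ∀ z : ℝ × ℝ, z.2 ≤ -4 → lam z = 1 + (li (nA z) + li (nB z)) ∧
    b1 z = -(3 / 2) * (li (nA z) + li (nB z)) ∧ b2 z = (3 * √3 / 2) * (li (nB z) - li (nA z))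
  mid : ∀ z : ℝ × ℝ, |z.2| ≤ 4 → 6 ≤ |z.1| → lam z = 1 ∧ b1 z = 0 ∧ b2 z = 0

/-- a doubly periodic solution of the PDE whose conformal factor has two non parallel gradients -/
structure IsSolution (A : ℝ) (lam b1 b2 : ℝ × ℝ → ℝ) : Prop where
  A_pos : 0 < A
  lam_smooth : ContDiff ℝ ∞ lam
  b1_smooth : ContDiff ℝ ∞ b1
  b2_smooth : ContDiff ℝ ∞ b2
  pos : ∀ z, 0 < lam z
  pde : ∀ z, PDE lam b1 b2 z
  per1 : ∀ z, lam (z + (A, 0)) = lam z ∧ b1 (z + (A, 0)) = b1 z ∧ b2 (z + (A, 0)) = b2 z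
  per2 : ∀ z, lam (z + (0, √3 * A)) = lam z ∧ b1 (z + (0, √3 * A)) = b1 z ∧
    b2 (z + (0, √3 * A)) = b2 z
  grad : ∃ z w, dx lam z * dy lam w - dy lam z * dx lam w ≠ 0

/-- the metric on the plane -/
def G (A : ℝ) (lam : ℝ × ℝ → ℝ) (x : Fin 2 → ℝ) (i j : Fin 2) : ℝ :=
  if i = j then (if i = 0 then A ^ 2 else 3 * A ^ 2) * lam (A * x 0, √3 * A * x 1) else 0

/-- frozen statement `S13199` -/
def Main : Prop :=
  ∀ d : ℕ, Odd d →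
  ∀ g : (Fin 2 → ℝ) → Fin 2 → Fin 2 → ℝ,
    (∀ i j, ContDiff ℝ ∞ (fun x => g x i j)) →
    (∀ x, (Matrix.of (g x)).PosDef) →
    (∀ (x : Fin 2 → ℝ) (v : Fin 2 → ℤ), g (x + (fun k => (v k : ℝ))) = g x) →
  ∀ H : (Fin 2 → ℝ) → (Fin 2 → ℝ) → ℝ,
    (∀ x p, H x p = (1 / 2 : ℝ) * dotProduct p ((Matrix.of (g x))⁻¹.mulVec p)) →
    (∃ (a : ℕ → ℕ → (Fin 2 → ℝ) → ℝ) (F : (Fin 2 → ℝ) → (Fin 2 → ℝ) → ℝ),
      (∀ x p, F x p = ∑ i ∈ Finset.range (d + 1), ∑ j ∈ Finset.range (d + 1 - i),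
          a i j x * p 0 ^ i * p 1 ^ j) ∧
      (∀ i j, ContDiff ℝ ∞ (a i j)) ∧
      (∀ i j (x : Fin 2 → ℝ) (v : Fin 2 → ℤ), a i j (x + (fun k => (v k : ℝ))) = a i j x) ∧
      (∃ i j x, i + j = d ∧ a i j x ≠ 0) ∧
      (∀ x p : Fin 2 → ℝ,
        ∑ k : Fin 2,
          (fderiv ℝ (fun y => F y p) x (Pi.single k (1 : ℝ))
              * fderiv ℝ (fun q => H x q) p (Pi.single k (1 : ℝ))
            - fderiv ℝ (fun q => F x q) p (Pi.single k (1 : ℝ))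
              * fderiv ℝ (fun y => H y p) x (Pi.single k (1 : ℝ))) = 0) ∧
      ¬ ∃ q : Polynomial ℝ, ∀ x p, F x p = q.eval (H x p)) →
    ∃ V : (Fin 2 → ℝ) → Fin 2 → ℝ,
      (∀ k, ContDiff ℝ ∞ (fun x => V x k)) ∧
      (∀ (x : Fin 2 → ℝ) (v : Fin 2 → ℤ), V (x + (fun k => (v k : ℝ))) = V x) ∧
      (∃ x, V x ≠ 0) ∧
      (∀ x (i j : Fin 2),
        ∑ k : Fin 2,
          (V x k * fderiv ℝ (fun y => g y i j) x (Pi.single k (1 : ℝ))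
            + g x k j * fderiv ℝ (fun y => V y k) x (Pi.single i (1 : ℝ))
            + g x i k * fderiv ℝ (fun y => V y k) x (Pi.single j (1 : ℝ))) = 0)

end

end Pool.Agent.Lib.BKF
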